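import Pool.Agent.K7.H97.MI.Defs

/-! Project MI, job BASE1: the base maps for the closed sets with `0` inside (or on the boundary). -/

set_option autoImplicit false

open Polynomial

namespace Pool.Agent.K7.H66.MI

open Pool.Agent.K7.H97.MI

/-! ### closure -/

theorem pr_const (r : ℝ) : PR (fun _ => r) := TR.const r

theorem pr_add {f g : Om → ℝ} (hf : PR f) (hg : PR g) : PR (fun x => f x + g x) := by
  have h := TR.add hf hg
  unfold PR
  simpa only [add_smul] using h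

theorem pr_mul {f g : Om → ℝ} (hf : PR f) (hg : PR g) : PR (fun x => f x * g x) := by
  have h := TR.mul hf hg
  unfold PR
  simpa only [smul_mul_assoc, mul_smul_comm, one_mul, smul_smul, mul_comm] using h

theorem pr_pow {f : Om → ℝ} (hf : PR f) (n : ℕ) : PR (fun x => f x ^ n) := by
  induction n with
  | zero => simpa only [pow_zero] using pr_const 1
  | succ n ih => simpa only [pow_succ] using pr_mul ih hf

theorem tr_smul {f : Om → ℝ} {g : Om → M2} (hf : PR f) (hg : TR g) :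
    TR (fun x => f x • g x) := by
  have h := TR.mul hf hg
  simpa only [smul_mul_assoc, one_mul] using h

theorem pr_trace {g : Om → M2} (hg : TR g) : PR (fun x => (g x).trace) := TR.tr hg

theorem pr_ht {g : Om → M2} (hg : TR g) : PR (fun x => ht (g x)) := by
  have h := pr_mul (pr_const (1 / 2)) (pr_trace hg)
  unfold ht
  refine (iff_of_eq (congrArg PR ?_)).1 h
  funext x
  ring

theorem tr_tl {g : Om → M2} (hg : TR g) : TR (fun x => tl (g x)) := by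
  have h := TR.add hg (tr_smul (pr_mul (pr_const (-1)) (pr_ht hg)) (TR.const 1))
  unfold tl
  refine (iff_of_eq (congrArg TR ?_)).1 h
  funext x
  simp only [one_smul, neg_mul, one_mul, neg_smul]
  rw [sub_eq_add_neg]

theorem det_two (T : M2) : T.det = T 0 0 * T 1 1 - T 0 1 * T 1 0 := Matrix.det_fin_two T

theorem dd_eq (T : M2) : dd T = ((tl T) * (tl T)).trace / 2 := by
  unfold dd tl ht
  rw [Matrix.det_fin_two]
  simp [Matrix.trace_fin_two, Matrix.mul_apply, Fin.sum_univ_two]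
  ring

theorem pr_dd {g : Om → M2} (hg : TR g) : PR (fun x => dd (g x)) := by
  have h := pr_mul (pr_const (1 / 2)) (pr_trace (TR.mul (tr_tl hg) (tr_tl hg)))
  refine (iff_of_eq (congrArg PR ?_)).1 h
  funext x
  rw [dd_eq]
  ring

/-! ### half trace and discriminant of a combination -/

theorem ht_comb (D N : ℝ) (T : M2) : ht (D • (1 : M2) + N • tl T) = D := by
  unfold tl ht
  simp [Matrix.trace_fin_two]

theorem dd_comb (D N : ℝ) (T : M2) : dd (D • (1 : M2) + N • tl T) = N ^ 2 * dd T := by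
  unfold dd tl ht
  rw [Matrix.det_fin_two, Matrix.det_fin_two]
  simp [Matrix.trace_fin_two]
  ring

theorem tl_comb (D N : ℝ) (T : M2) : tl (D • (1 : M2) + N • tl T) = N • tl T := by
  unfold tl
  rw [show T - ht T • (1 : M2) = tl T from rfl, ht_comb]
  abel

/-- strong form of a base map -/
def Good (J : Set ℝ) : Prop := ∃ P : Om → M2, TR P ∧ (∀ x, 0 < ht (P x)) ∧ (∀ x, rr (P x) ∈ J) ∧
  ∀ r ∈ J, ∃ x, rr (P x) = r

theorem Good.ok {J : Set ℝ} (h : Good J) : BaseOK J := by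
  obtain ⟨P, h1, h2, h3, h4⟩ := h
  refine ⟨P, h1, fun x _ => h3 x, ∅, fun r hr _ => ?_⟩
  obtain ⟨x, hx⟩ := h4 r (interior_subset hr)
  exact ⟨x, (h2 x).ne', hx⟩

/-- the point with given invariants -/
def pt (e l : ℝ) : Om := fun i => if i = 0 then !![0, e; 1, 0] else !![l, 0; 0, 0]

theorem dd_pt (e l : ℝ) : dd (pt e l 0) = e := by
  unfold pt dd
  rw [Matrix.det_fin_two]
  simp [Matrix.trace_fin_two]

theorem tr_pt (e l : ℝ) : (pt e l 1).trace = l := by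
  unfold pt
  simp [Matrix.trace_fin_two]

/-- from two real functions -/
theorem good_of {J : Set ℝ} (N D : ℝ → ℝ → ℝ)
    (hN : ∀ f g : Om → ℝ, PR f → PR g → PR (fun x => N (f x) (g x)))
    (hD : ∀ f g : Om → ℝ, PR f → PR g → PR (fun x => D (f x) (g x)))
    (hpos : ∀ e l, 0 < D e l) (hJ : ∀ e l, e * (N e l / D e l) ^ 2 ∈ J)
    (hc : ∀ r ∈ J, ∃ e l, e * (N e l / D e l) ^ 2 = r) : Good J := by
  have hf : PR (fun x => dd (x 0)) := pr_dd (TR.var 0)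
  have hg : PR (fun x => (x 1).trace) := pr_trace (TR.var 1)
  have hrr : ∀ x : Om, rr (D (dd (x 0)) ((x 1).trace) • (1 : M2) +
      N (dd (x 0)) ((x 1).trace) • tl (x 0)) =
      dd (x 0) * (N (dd (x 0)) ((x 1).trace) / D (dd (x 0)) ((x 1).trace)) ^ 2 := by
    intro x
    unfold rr
    rw [ht_comb, dd_comb]
    have := (hpos (dd (x 0)) ((x 1).trace)).ne'
    field_simp
  refine ⟨fun x => D (dd (x 0)) ((x 1).trace) • (1 : M2) +
      N (dd (x 0)) ((x 1).trace) • tl (x 0), ?_, ?_, ?_, ?_⟩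
  · exact TR.add (hD _ _ hf hg) (tr_smul (hN _ _ hf hg) (tr_tl (TR.var 0)))
  · intro x
    rw [ht_comb]
    exact hpos _ _
  · intro x
    rw [hrr]
    exact hJ _ _
  · intro r hr
    obtain ⟨e, l, h⟩ := hc r hr
    refine ⟨pt e l, ?_⟩
    rw [hrr, dd_pt, tr_pt]
    exact h

theorem good_univ : Good Set.univ := by
  refine good_of (fun _ _ => 1) (fun _ _ => 1) (fun _ _ _ _ => pr_const 1)
    (fun _ _ _ _ => pr_const 1) (fun _ _ => one_pos) (fun _ _ => Set.mem_univ _) ?_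
  intro r _
  exact ⟨r, 0, by norm_num⟩

/-! ### the core inequality -/

theorem core0 {A B y : ℝ} {n : ℕ} (hA : 0 ≤ A) (hB : 0 ≤ B) (hAB : B ≤ 2 ^ n * A) (hn : 1 ≤ n) :
    A * (|y| * ((1 + y ^ 2) * ((1 + y ^ 2) ^ 2) ^ n)) +
      B * (|y| * (|1 - y ^ 2| * ((1 - y ^ 2) ^ 2) ^ n)) ≤
      A * ((1 + y ^ 4) * (2 * (1 + y ^ 4)) ^ n) := by
  obtain ⟨k, rfl⟩ : ∃ k, n = k + 1 := ⟨n - 1, by omega⟩
  set X := 1 + y ^ 2 with hX
  set W := 1 - y ^ 2 with hW
  set Q := 1 + y ^ 4 with hQ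
  set z := |y| with hz
  have hz0 : 0 ≤ z := abs_nonneg y
  have hz2 : z ^ 2 = y ^ 2 := sq_abs y
  have hX0 : 0 < X := by positivity
  have hQ0 : 0 < Q := by positivity
  have h1 : X ^ 2 ≤ 2 * Q := by
    rw [hX, hQ]; nlinarith [sq_nonneg (1 - y ^ 2)]
  have h2 : W ^ 2 ≤ Q := by
    rw [hW, hQ]; nlinarith [sq_nonneg y]
  have h3 : z * |W| ≤ Q / 2 := by
    have h4 : |z * W| ≤ Q / 2 := by
      have hW' : W = 1 - z ^ 2 := by rw [hW, hz2]
      have hQ' : Q = 1 + z ^ 4 := by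
        rw [hQ]
        have : z ^ 4 = (z ^ 2) ^ 2 := by ring
        rw [this, hz2]; ring
      rw [abs_le, hW', hQ']
      constructor
      · nlinarith [sq_nonneg (z ^ 2 - z - 1), sq_nonneg z]
      · nlinarith [sq_nonneg (z ^ 2 + z - 1), sq_nonneg z]
    rwa [abs_mul, abs_of_nonneg hz0] at h4
  have h5 : z * X + W ^ 2 / 2 ≤ Q := by
    have hX' : X = 1 + z ^ 2 := by rw [hX, hz2]
    have hW' : W = 1 - z ^ 2 := by rw [hW, hz2]
    have hQ' : Q = 1 + z ^ 4 := by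
      rw [hQ]
      have : z ^ 4 = (z ^ 2) ^ 2 := by ring
      rw [this, hz2]; ring
    rw [hX', hW', hQ']
    nlinarith [mul_nonneg (show (0:ℝ) ≤ 1 + z ^ 2 by positivity) (sq_nonneg (1 - z))]
  have h6 : z * (X * (X ^ 2) ^ (k + 1)) ≤ z * X * (2 * Q) ^ (k + 1) := by
    have := pow_le_pow_left₀ (sq_nonneg X) h1 (k + 1)
    calc z * (X * (X ^ 2) ^ (k + 1)) = z * X * (X ^ 2) ^ (k + 1) := by ring
      _ ≤ z * X * (2 * Q) ^ (k + 1) := by gcongr
  have h7 : z * (|W| * (W ^ 2) ^ (k + 1)) ≤ W ^ 2 / 2 * Q ^ (k + 1) := by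
    have h8 := pow_le_pow_left₀ (sq_nonneg W) h2 k
    calc z * (|W| * (W ^ 2) ^ (k + 1)) = (z * |W|) * W ^ 2 * (W ^ 2) ^ k := by ring
      _ ≤ (Q / 2) * W ^ 2 * Q ^ k := by gcongr
      _ = W ^ 2 / 2 * Q ^ (k + 1) := by ring
  have hpk : (0 : ℝ) < 2 ^ (k + 1) := by positivity
  calc A * (z * (X * (X ^ 2) ^ (k + 1))) + B * (z * (|W| * (W ^ 2) ^ (k + 1)))
      ≤ A * (z * X * (2 * Q) ^ (k + 1)) + (2 ^ (k + 1) * A) * (W ^ 2 / 2 * Q ^ (k + 1)) := by
        refine add_le_add (mul_le_mul_of_nonneg_left h6 hA) ?_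
        exact mul_le_mul hAB h7 (by positivity) (by positivity)
    _ = A * ((z * X + W ^ 2 / 2) * (2 * Q) ^ (k + 1)) := by rw [mul_pow]; ring
    _ ≤ A * (Q * (2 * Q) ^ (k + 1)) := by gcongr

theorem core {A B y : ℝ} {n : ℕ} (hA : 0 ≤ A) (hB : 0 ≤ B) (hAB : B ≤ 2 ^ n * A) (hn : 1 ≤ n) :
    |y * (A * ((1 + y ^ 2) * ((1 + y ^ 2) ^ 2) ^ n) + B * ((1 - y ^ 2) * ((1 - y ^ 2) ^ 2) ^ n))| ≤
      A * ((1 + y ^ 4) * (2 * (1 + y ^ 4)) ^ n) := by
  refine le_trans ?_ (core0 (y := y) hA hB hAB hn)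
  rw [mul_add]
  refine (abs_add_le _ _).trans (le_of_eq ?_)
  rw [abs_mul, abs_mul, abs_mul, abs_mul, abs_mul, abs_mul, abs_of_nonneg hA, abs_of_nonneg hB,
    abs_of_nonneg (by positivity : (0:ℝ) ≤ 1 + y ^ 2),
    abs_of_nonneg (by positivity : (0:ℝ) ≤ ((1 + y ^ 2) ^ 2) ^ n),
    abs_of_nonneg (by positivity : (0:ℝ) ≤ ((1 - y ^ 2) ^ 2) ^ n)]
  ring

/-- numerator -/
noncomputable def N1 (A B : ℝ) (n : ℕ) (e : ℝ) : ℝ :=
  A * ((1 + e) * ((1 + e) ^ 2) ^ n) + B * ((1 - e) * ((1 - e) ^ 2) ^ n)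

/-- denominator -/
noncomputable def D1 (n : ℕ) (e : ℝ) : ℝ := (1 + e ^ 2) * (2 * (1 + e ^ 2)) ^ n

theorem D1_pos (n : ℕ) (e : ℝ) : 0 < D1 n e := by unfold D1; positivity

theorem N1_neg (A B : ℝ) (n : ℕ) (e : ℝ) : N1 A B n (-e) = N1 B A n e := by
  unfold N1; ring

theorem D1_neg (n : ℕ) (e : ℝ) : D1 n (-e) = D1 n e := by
  unfold D1; ring

/-- for positive `e` -/
theorem pos_le {A B : ℝ} {n : ℕ} (hA : 0 ≤ A) (hB : 0 ≤ B) (hAB : B ≤ 2 ^ n * A) (hn : 1 ≤ n)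
    {e : ℝ} (he : 0 ≤ e) : e * (N1 A B n e / D1 n e) ^ 2 ≤ A ^ 2 := by
  obtain ⟨y, hy⟩ : ∃ y : ℝ, y ^ 2 = e := ⟨√e, Real.sq_sqrt he⟩
  have h := core (y := y) hA hB hAB hn
  have h4 : y ^ 4 = e ^ 2 := by rw [← hy]; ring
  rw [h4, hy] at h
  have hD := D1_pos n e
  have h1 : |y * N1 A B n e| ≤ A * D1 n e := h
  have h2 : (y * N1 A B n e) ^ 2 ≤ (A * D1 n e) ^ 2 := by
    rw [← sq_abs (y * _)]
    exact pow_le_pow_left₀ (abs_nonneg _) h1 2
  rw [div_pow, ← mul_div_assoc, div_le_iff₀ (by positivity)]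
  calc e * N1 A B n e ^ 2 = (y * N1 A B n e) ^ 2 := by rw [mul_pow, hy]
    _ ≤ (A * D1 n e) ^ 2 := h2
    _ = A ^ 2 * D1 n e ^ 2 := by ring

theorem neg_ge {A B : ℝ} {n : ℕ} (hA : 0 ≤ A) (hB : 0 ≤ B) (hAB : A ≤ 2 ^ n * B) (hn : 1 ≤ n)
    {e : ℝ} (he : e ≤ 0) : -B ^ 2 ≤ e * (N1 A B n e / D1 n e) ^ 2 := by
  have h := pos_le hB hA hAB hn (e := -e) (by linarith)
  rw [N1_neg, D1_neg] at h
  linarith

theorem continuous_phi1 (A B : ℝ) (n : ℕ) :
    Continuous fun e : ℝ => e * (N1 A B n e / D1 n e) ^ 2 := by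
  have h1 : Continuous (N1 A B n) := by unfold N1; fun_prop
  have h2 : Continuous (D1 n) := by unfold D1; fun_prop
  exact continuous_id.mul ((h1.div h2 fun e => (D1_pos n e).ne').pow 2)

theorem phi1_one (A B : ℝ) (n : ℕ) : (1 : ℝ) * (N1 A B n 1 / D1 n 1) ^ 2 = A ^ 2 := by
  have h1 : N1 A B n 1 = A * D1 n 1 := by
    unfold N1 D1
    norm_num
  rw [h1, mul_div_assoc, div_self (D1_pos n 1).ne']
  ring

theorem phi1_neg_one (A B : ℝ) (n : ℕ) :
    (-1 : ℝ) * (N1 A B n (-1) / D1 n (-1)) ^ 2 = -B ^ 2 := by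
  rw [N1_neg, D1_neg, neg_one_mul, neg_inj]
  simpa using phi1_one B A n

theorem good_Icc {a b : ℝ} (ha : a < 0) (hb : 0 < b) : Good (Set.Icc a b) := by
  obtain ⟨A, hA0, hA⟩ : ∃ A : ℝ, 0 < A ∧ A ^ 2 = b := ⟨√b, Real.sqrt_pos.2 hb, Real.sq_sqrt hb.le⟩
  obtain ⟨B, hB0, hB⟩ : ∃ B : ℝ, 0 < B ∧ B ^ 2 = -a :=
    ⟨√(-a), Real.sqrt_pos.2 (by linarith), Real.sq_sqrt (by linarith)⟩
  obtain ⟨n, hn1, hn2, hn3⟩ : ∃ n : ℕ, 1 ≤ n ∧ B ≤ 2 ^ n * A ∧ A ≤ 2 ^ n * B := by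
    obtain ⟨n1, h1⟩ := pow_unbounded_of_one_lt (B / A) (by norm_num : (1 : ℝ) < 2)
    obtain ⟨n2, h2⟩ := pow_unbounded_of_one_lt (A / B) (by norm_num : (1 : ℝ) < 2)
    refine ⟨n1 + n2 + 1, by omega, ?_, ?_⟩
    · rw [div_lt_iff₀ hA0] at h1
      refine h1.le.trans (mul_le_mul_of_nonneg_right ?_ hA0.le)
      exact pow_le_pow_right₀ (by norm_num) (by omega)
    · rw [div_lt_iff₀ hB0] at h2
      refine h2.le.trans (mul_le_mul_of_nonneg_right ?_ hB0.le)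
      exact pow_le_pow_right₀ (by norm_num) (by omega)
  refine good_of (fun e _ => N1 A B n e) (fun e _ => D1 n e) ?_ ?_ (fun e _ => D1_pos n e) ?_ ?_
  · intro f g hf hg
    have hm : PR (fun x => 1 - f x) := by
      have := pr_add (pr_const 1) (pr_mul (pr_const (-1)) hf)
      refine (iff_of_eq (congrArg PR ?_)).1 this
      funext x; ring
    exact pr_add (pr_mul (pr_const A) (pr_mul (pr_add (pr_const 1) hf)
        (pr_pow (pr_pow (pr_add (pr_const 1) hf) 2) n)))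
      (pr_mul (pr_const B) (pr_mul hm (pr_pow (pr_pow hm 2) n)))
  · intro f g hf hg
    exact pr_mul (pr_add (pr_const 1) (pr_pow hf 2))
      (pr_pow (pr_mul (pr_const 2) (pr_add (pr_const 1) (pr_pow hf 2))) n)
  · intro e _
    rcases le_total 0 e with he | he
    · refine ⟨?_, (pos_le hA0.le hB0.le hn2 hn1 he).trans hA.le⟩
      exact ha.le.trans (mul_nonneg he (sq_nonneg _))
    · refine ⟨?_, ?_⟩
      · have := neg_ge hA0.le hB0.le hn3 hn1 he
        rw [hB, neg_neg] at this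
        exact this
      · exact (mul_nonpos_of_nonpos_of_nonneg he (sq_nonneg _)).trans hb.le
  · intro r hr
    have h1 : (1 : ℝ) * (N1 A B n 1 / D1 n 1) ^ 2 = b := (phi1_one A B n).trans hA
    have h2 : (-1 : ℝ) * (N1 A B n (-1) / D1 n (-1)) ^ 2 = a := by
      rw [phi1_neg_one, hB, neg_neg]
    have h3 := intermediate_value_Icc (show (-1 : ℝ) ≤ 1 by norm_num)
      (continuous_phi1 A B n).continuousOn
    rw [h1, h2] at h3
    obtain ⟨e, _, he⟩ := h3 hr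
    exact ⟨e, 0, he⟩

/-! ### half lines -/

/-- the denominator of `R` -/
noncomputable def G2 (e l : ℝ) : ℝ := ((1 + l ^ 2) + l ^ 2 * e) ^ 2 + (1 + l ^ 2)

theorem G2_pos (e l : ℝ) : 0 < G2 e l := by unfold G2; positivity

noncomputable def N2 (A e l : ℝ) : ℝ :=
  A * ((1 + e) ^ 3 * G2 e l + (1 - e) ^ 3 * (1 + l ^ 2) ^ 2)

noncomputable def D2 (e l : ℝ) : ℝ := 2 * (1 + e ^ 2) ^ 2 * G2 e l

theorem D2_pos (e l : ℝ) : 0 < D2 e l := by
  unfold D2
  have := G2_pos e l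
  positivity

theorem pos_le2 {A : ℝ} (hA : 0 ≤ A) {e : ℝ} (he : 0 ≤ e) (l : ℝ) :
    e * (N2 A e l / D2 e l) ^ 2 ≤ A ^ 2 := by
  obtain ⟨y, hy0, hy⟩ : ∃ y : ℝ, 0 ≤ y ∧ y ^ 2 = e := ⟨√e, Real.sqrt_nonneg e, Real.sq_sqrt he⟩
  have hG := G2_pos e l
  have hG1 : (1 + l ^ 2) ^ 2 ≤ G2 e l := by
    unfold G2
    have h1 : (1 + l ^ 2) ^ 2 ≤ ((1 + l ^ 2) + l ^ 2 * e) ^ 2 := by
      apply pow_le_pow_left₀ (by positivity)
      have : 0 ≤ l ^ 2 * e := by positivity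
      linarith
    have h2 : (0 : ℝ) ≤ 1 + l ^ 2 := by positivity
    linarith
  have h := core0 (y := y) (A := 1) (B := 1) (n := 1) zero_le_one zero_le_one (by norm_num) le_rfl
  have h4 : y ^ 4 = e ^ 2 := by rw [← hy]; ring
  rw [h4, hy, abs_of_nonneg hy0] at h
  have hD := D2_pos e l
  have hsum : y * (1 + e) ^ 3 + y * |1 - e| ^ 3 ≤ 2 * (1 + e ^ 2) ^ 2 := by
    have h5 : (1 - e) ^ 2 = |1 - e| ^ 2 := (sq_abs _).symm
    rw [h5] at h
    nlinarith [h]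
  have h1 : |y * N2 A e l| ≤ A * D2 e l := by
    unfold N2 D2
    have e1 : y * (A * ((1 + e) ^ 3 * G2 e l + (1 - e) ^ 3 * (1 + l ^ 2) ^ 2)) =
        A * (y * ((1 + e) ^ 3 * G2 e l) + y * ((1 - e) ^ 3 * (1 + l ^ 2) ^ 2)) := by ring
    rw [e1, abs_mul, abs_of_nonneg hA]
    apply mul_le_mul_of_nonneg_left _ hA
    calc |y * ((1 + e) ^ 3 * G2 e l) + y * ((1 - e) ^ 3 * (1 + l ^ 2) ^ 2)|
        ≤ |y * ((1 + e) ^ 3 * G2 e l)| + |y * ((1 - e) ^ 3 * (1 + l ^ 2) ^ 2)| := abs_add_le _ _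
      _ = y * (1 + e) ^ 3 * G2 e l + y * |1 - e| ^ 3 * (1 + l ^ 2) ^ 2 := by
          rw [abs_of_nonneg (by positivity), abs_mul, abs_mul, abs_pow, abs_of_nonneg hy0,
            abs_of_nonneg (by positivity : (0:ℝ) ≤ (1 + l ^ 2) ^ 2)]
          ring
      _ ≤ y * (1 + e) ^ 3 * G2 e l + y * |1 - e| ^ 3 * G2 e l := by gcongr
      _ = (y * (1 + e) ^ 3 + y * |1 - e| ^ 3) * G2 e l := by ring
      _ ≤ 2 * (1 + e ^ 2) ^ 2 * G2 e l := by gcongr
  have h2 : (y * N2 A e l) ^ 2 ≤ (A * D2 e l) ^ 2 := by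
    rw [← sq_abs (y * _)]
    exact pow_le_pow_left₀ (abs_nonneg _) h1 2
  rw [div_pow, ← mul_div_assoc, div_le_iff₀ (by positivity)]
  calc e * N2 A e l ^ 2 = (y * N2 A e l) ^ 2 := by rw [mul_pow, hy]
    _ ≤ (A * D2 e l) ^ 2 := h2
    _ = A ^ 2 * D2 e l ^ 2 := by ring

theorem phi2_neg_one (A l : ℝ) : (-1 : ℝ) * (N2 A (-1) l / D2 (-1) l) ^ 2 =
    -(A * ((1 + l ^ 2) ^ 2 / (1 + (1 + l ^ 2)))) ^ 2 := by
  have hG : G2 (-1) l = 1 + (1 + l ^ 2) := by unfold G2; ring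
  have h : N2 A (-1) l / D2 (-1) l = A * ((1 + l ^ 2) ^ 2 / (1 + (1 + l ^ 2))) := by
    unfold N2 D2
    rw [hG]
    have : (1 + (1 + l ^ 2) : ℝ) ≠ 0 := by positivity
    field_simp
    ring
  rw [h]
  ring

theorem phi2_one (A : ℝ) : (1 : ℝ) * (N2 A 1 0 / D2 1 0) ^ 2 = A ^ 2 := by
  have h : N2 A 1 0 / D2 1 0 = A := by
    unfold N2 D2 G2
    norm_num
  rw [h]
  ring

theorem continuous_phi2 (A : ℝ) :
    Continuous fun e : ℝ => e * (N2 A e 0 / D2 e 0) ^ 2 := by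
  have h1 : Continuous (fun e : ℝ => N2 A e 0) := by unfold N2 G2; fun_prop
  have h2 : Continuous (fun e : ℝ => D2 e 0) := by unfold D2 G2; fun_prop
  exact continuous_id.mul ((h1.div h2 fun e => (D2_pos e 0).ne').pow 2)

theorem cover2 {b : ℝ} (hb : 0 < b) {A : ℝ} (hA0 : 0 < A) (hA : A ^ 2 = b) {r : ℝ} (hr : r ≤ b) :
    ∃ e l, e * (N2 A e l / D2 e l) ^ 2 = r := by
  rcases le_total (-(b / 4)) r with h | h
  · have h1 : (1 : ℝ) * (N2 A 1 0 / D2 1 0) ^ 2 = b := (phi2_one A).trans hA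
    have h2 : (-1 : ℝ) * (N2 A (-1) 0 / D2 (-1) 0) ^ 2 = -(b / 4) := by
      rw [phi2_neg_one, ← hA]; norm_num; ring
    have h3 := intermediate_value_Icc (show (-1 : ℝ) ≤ 1 by norm_num)
      (continuous_phi2 A).continuousOn
    rw [h1, h2] at h3
    obtain ⟨e, _, he⟩ := h3 ⟨h, hr⟩
    exact ⟨e, 0, he⟩
  · obtain ⟨ρ, hρ0, hρ⟩ : ∃ ρ : ℝ, 0 ≤ ρ ∧ ρ ^ 2 = -r / b :=
      ⟨√(-r / b), Real.sqrt_nonneg _, Real.sq_sqrt (div_nonneg (by linarith) hb.le)⟩
    have hρ2 : 1 / 2 ≤ ρ := by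
      have h1 : (1 / 2 : ℝ) ^ 2 ≤ ρ ^ 2 := by
        rw [hρ, le_div_iff₀ hb]; linarith
      exact le_of_sq_le_sq h1 hρ0
    obtain ⟨t, ht0, ht⟩ : ∃ t : ℝ, 0 ≤ t ∧ t ^ 2 = ρ ^ 2 + 4 * ρ :=
      ⟨√(ρ ^ 2 + 4 * ρ), Real.sqrt_nonneg _, Real.sq_sqrt (by positivity)⟩
    have ht1 : 2 - ρ ≤ t := by
      by_contra hcon
      push Not at hcon
      nlinarith
    obtain ⟨l, hl⟩ : ∃ l : ℝ, l ^ 2 = (ρ + t) / 2 - 1 :=
      ⟨√((ρ + t) / 2 - 1), Real.sq_sqrt (by linarith)⟩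
    refine ⟨-1, l, ?_⟩
    rw [phi2_neg_one]
    have hL : 1 + l ^ 2 = (ρ + t) / 2 := by rw [hl]; ring
    have h1 : (1 + l ^ 2) ^ 2 / (1 + (1 + l ^ 2)) = ρ := by
      rw [hL, div_eq_iff (by positivity)]
      nlinarith [ht]
    rw [h1, mul_pow, hA, hρ]
    field_simp

theorem pr_N2 (A : ℝ) {f g : Om → ℝ} (hf : PR f) (hg : PR g) :
    PR (fun x => N2 A (f x) (g x)) ∧ PR (fun x => D2 (f x) (g x)) := by
  have hm : PR (fun x => 1 - f x) := by
    have := pr_add (pr_const 1) (pr_mul (pr_const (-1)) hf)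
    refine (iff_of_eq (congrArg PR ?_)).1 this
    funext x; ring
  have hL : PR (fun x => 1 + g x ^ 2) := pr_add (pr_const 1) (pr_pow hg 2)
  have hG : PR (fun x => G2 (f x) (g x)) :=
    pr_add (pr_pow (pr_add hL (pr_mul (pr_pow hg 2) hf)) 2) hL
  exact ⟨pr_mul (pr_const A) (pr_add (pr_mul (pr_pow (pr_add (pr_const 1) hf) 3) hG)
      (pr_mul (pr_pow hm 3) (pr_pow hL 2))),
    pr_mul (pr_mul (pr_const 2) (pr_pow (pr_add (pr_const 1) (pr_pow hf 2)) 2)) hG⟩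

theorem good_Iic {b : ℝ} (hb : 0 < b) : Good (Set.Iic b) := by
  obtain ⟨A, hA0, hA⟩ : ∃ A : ℝ, 0 < A ∧ A ^ 2 = b := ⟨√b, Real.sqrt_pos.2 hb, Real.sq_sqrt hb.le⟩
  refine good_of (N2 A) D2 (fun f g hf hg => (pr_N2 A hf hg).1) (fun f g hf hg => (pr_N2 A hf hg).2)
    D2_pos ?_ ?_
  · intro e l
    rcases le_total 0 e with he | he
    · exact (pos_le2 hA0.le he l).trans hA.le
    · exact (mul_nonpos_of_nonpos_of_nonneg he (sq_nonneg _)).trans hb.le
  · intro r hr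
    exact cover2 hb hA0 hA hr

theorem good_Ici {a : ℝ} (ha : a < 0) : Good (Set.Ici a) := by
  have hb : 0 < -a := by linarith
  obtain ⟨A, hA0, hA⟩ : ∃ A : ℝ, 0 < A ∧ A ^ 2 = -a :=
    ⟨√(-a), Real.sqrt_pos.2 hb, Real.sq_sqrt hb.le⟩
  have hneg : ∀ {f : Om → ℝ}, PR f → PR (fun x => -f x) := by
    intro f hf
    have := pr_mul (pr_const (-1)) hf
    refine (iff_of_eq (congrArg PR ?_)).1 this
    funext x; ring
  refine good_of (fun e l => N2 A (-e) l) (fun e l => D2 (-e) l)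
    (fun f g hf hg => (pr_N2 A (hneg hf) hg).1) (fun f g hf hg => (pr_N2 A (hneg hf) hg).2)
    (fun e l => D2_pos (-e) l) ?_ ?_
  · intro e l
    rw [Set.mem_Ici]
    rcases le_total 0 e with he | he
    · exact ha.le.trans (mul_nonneg he (sq_nonneg _))
    · have := pos_le2 hA0.le (e := -e) (by linarith) l
      rw [hA] at this
      linarith
  · intro r hr
    rw [Set.mem_Ici] at hr
    obtain ⟨e, l, h⟩ := cover2 hb hA0 hA (r := -r) (by linarith)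
    refine ⟨-e, l, ?_⟩
    simp only [neg_neg]
    linarith

/-! ### duality -/

theorem ok_dual {J J' : Set ℝ} (h : Good J) (h1 : ∀ r ∈ J, r ≠ 0 → r⁻¹ ∈ J')
    (h2 : ∀ r ∈ interior J', r ≠ 0 → r⁻¹ ∈ J) : BaseOK J' := by
  obtain ⟨P, hP, hpos, hJ, hc⟩ := h
  have e1 : ∀ x, dd (P x) • (1 : M2) + ht (P x) • tl (P x) =
      dd (P x) • (1 : M2) + ht (P x) • tl (P x) := fun _ => rfl
  have hrr : ∀ x, dd (P x) ≠ 0 →
      rr (dd (P x) • (1 : M2) + ht (P x) • tl (P x)) = (rr (P x))⁻¹ := by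
    intro x hx
    unfold rr
    rw [ht_comb, dd_comb]
    have := (hpos x).ne'
    field_simp
  refine ⟨fun x => dd (P x) • (1 : M2) + ht (P x) • tl (P x), ?_, ?_, {0}, ?_⟩
  · exact TR.add (tr_smul (pr_dd hP) (TR.const 1) |> fun h => by simpa only [one_smul] using h)
      (tr_smul (pr_ht hP) (tr_tl hP))
  · intro x hx
    rw [ht_comb] at hx
    rw [hrr x hx]
    refine h1 _ (hJ x) ?_
    unfold rr
    exact div_ne_zero hx (pow_ne_zero 2 (hpos x).ne')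
  · intro r hr hr0
    rw [Finset.mem_singleton] at hr0
    obtain ⟨x, hx⟩ := hc _ (h2 r hr hr0)
    have hdd : dd (P x) ≠ 0 := by
      intro h0
      unfold rr at hx
      rw [h0, zero_div] at hx
      exact inv_ne_zero hr0 hx.symm
    refine ⟨x, ?_, ?_⟩
    · rw [ht_comb]; exact hdd
    · rw [hrr x hdd, hx, inv_inv]

theorem base1 : StB1 := by
  refine ⟨good_univ.ok, fun a b ha hb => (good_Icc ha hb).ok, fun b hb => (good_Iic hb).ok,
    fun a ha => (good_Ici ha).ok, fun a b ha hb hab => ?_⟩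
  rcases ha.lt_or_eq with ha | rfl
  · rcases hb.lt_or_eq with hb | rfl
    · refine ok_dual (good_Icc (inv_lt_zero.2 ha) (inv_pos.2 hb)) ?_ ?_
      · rintro r ⟨hr1, hr2⟩ hr0
        rcases lt_or_gt_of_ne hr0 with h | h
        · left
          rw [Set.mem_Iic]
          have := (inv_le_inv_of_neg h (inv_lt_zero.2 ha)).2 hr1
          rwa [inv_inv] at this
        · right
          rw [Set.mem_Ici]
          have := (inv_le_inv₀ (inv_pos.2 hb) h).2 hr2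
          rwa [inv_inv] at this
      · intro r hr hr0
        rcases interior_subset hr with h | h
        · rw [Set.mem_Iic] at h
          refine ⟨(inv_le_inv_of_neg ha (h.trans_lt ha)).2 h, ?_⟩
          exact (inv_lt_zero.2 (h.trans_lt ha)).le.trans (inv_pos.2 hb).le
        · rw [Set.mem_Ici] at h
          refine ⟨(inv_lt_zero.2 ha).le.trans (inv_pos.2 (hb.trans_le h)).le, ?_⟩
          exact (inv_le_inv₀ (hb.trans_le h) hb).2 h
    · refine ok_dual (good_Ici (inv_lt_zero.2 ha)) ?_ ?_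
      · intro r hr hr0
        rw [Set.mem_Ici] at hr
        rcases lt_or_gt_of_ne hr0 with h | h
        · left
          rw [Set.mem_Iic]
          have := (inv_le_inv_of_neg h (inv_lt_zero.2 ha)).2 hr
          rwa [inv_inv] at this
        · right
          exact (inv_pos.2 h).le
      · intro r hr hr0
        rw [Set.mem_Ici]
        rcases interior_subset hr with h | h
        · rw [Set.mem_Iic] at h
          exact (inv_le_inv_of_neg ha (h.trans_lt ha)).2 h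
        · rw [Set.mem_Ici] at h
          exact (inv_lt_zero.2 ha).le.trans (inv_nonneg.2 h)
  · have hb : 0 < b := hab
    refine ok_dual (good_Iic (inv_pos.2 hb)) ?_ ?_
    · intro r hr hr0
      rw [Set.mem_Iic] at hr
      rcases lt_or_gt_of_ne hr0 with h | h
      · left
        exact (inv_lt_zero.2 h).le
      · right
        rw [Set.mem_Ici]
        have := (inv_le_inv₀ (inv_pos.2 hb) h).2 hr
        rwa [inv_inv] at this
    · intro r hr hr0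
      rw [Set.mem_Iic]
      rcases interior_subset hr with h | h
      · rw [Set.mem_Iic] at h
        exact (inv_nonpos.2 h).trans (inv_pos.2 hb).le
      · rw [Set.mem_Ici] at h
        exact (inv_le_inv₀ (hb.trans_le h) hb).2 h

end Pool.Agent.K7.H66.MI
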